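import Pool.Agent.Helper24.H2.Defs

/-!
# Type 2: the derivative of the form on the line (DIFF)
-/

set_option autoImplicit false

namespace Pool.Agent.Helper82.H2

open Finset Pool.Agent.Helper24.H2
open Pool.Agent.Helper28.HN (I Un En cr aff)

variable {m : ℕ} {S : Type*} [CommRing S]

/-! ## The line over `x` -/

section line

variable (c : Ix m → S) (x : I m → S)

theorem bf_sum (r : Bi m) (x y : I m → S) :
    bf c r x y = ∑ j, bf c r x (Pi.single j 1) * y j := by
  have h : ∀ j, bf c r x (Pi.single j 1) = ∑ i, c (.inl (r, i, j)) * x i := by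
    intro j
    simp only [bf]
    refine sum_congr rfl fun i _ => ?_
    rw [sum_eq_single j (fun b _ hb => by simp [hb]) (fun h => absurd (mem_univ _) h)]
    simp
  rw [sum_congr rfl fun j _ => by rw [h j]]
  simp only [bf, sum_mul]
  rw [sum_comm]

theorem sf_sum (x x' y : I m → S) :
    sf c x x' y = ∑ k, sf c x x' (Pi.single k 1) * y k := by
  have h : ∀ k, sf c x x' (Pi.single k 1) =
      ∑ i, ∑ j, (c (.inr (.inl (i, j, k))) + c (.inr (.inl (j, i, k)))) * x i * x' j := by
    intro k
    simp only [sf]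
    refine sum_congr rfl fun i _ => sum_congr rfl fun j _ => ?_
    rw [sum_eq_single k (fun b _ hb => by simp [hb]) (fun h => absurd (mem_univ _) h)]
    simp
  rw [sum_congr rfl fun k _ => by rw [h k]]
  simp only [sf, sum_mul]
  have h2 : ∀ i : I m, (∑ j, ∑ k, (c (.inr (.inl (i, j, k))) + c (.inr (.inl (j, i, k)))) *
      x i * x' j * y k) = ∑ k, ∑ j, (c (.inr (.inl (i, j, k))) + c (.inr (.inl (j, i, k)))) *
      x i * x' j * y k := fun i => sum_comm
  rw [sum_congr rfl fun i _ => h2 i]
  exact sum_comm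

theorem lx_sum (r : Fin m) (x y : I m → S) :
    lx c r x y = ∑ j, lx c r x (Pi.single j 1) * y j := by
  by_cases h : r.val + 1 < m
  · simp only [lx, h, dite_true]
    exact bf_sum c _ x y
  · simp only [lx, h, dite_false]
    exact sf_sum c x x y

theorem lx_split (r : Fin m) (x y : I m → S) :
    lx c r x y = lx c r x (Pi.single 0 1) * y 0 + lx c r x (Pi.single 1 1) * y 1 +
      (Mx c x).mulVec (fun b => y b.succ.succ) r := by
  rw [lx_sum, Fin.sum_univ_succ, Fin.sum_univ_succ]
  exact (add_assoc (G := S) _ _ _).symm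

theorem mulVec_adj (M : Matrix (Fin m) (Fin m) S) (v : Fin m → S) :
    M.mulVec (M.adjugate.mulVec v) = M.det • v := by
  rw [Matrix.mulVec_mulVec, Matrix.mul_adjugate, Matrix.smul_mulVec, Matrix.one_mulVec]

theorem adj_mulVec (M : Matrix (Fin m) (Fin m) S) (v : Fin m → S) :
    M.adjugate.mulVec (M.mulVec v) = M.det • v := by
  rw [Matrix.mulVec_mulVec, Matrix.adjugate_mul, Matrix.smul_mulVec, Matrix.one_mulVec]

theorem one_eq : (1 : I m) = Fin.succ 0 := rfl

theorem Y0_zero : Y0 c x 0 = (Mx c x).det := by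
  rw [Y0, Fin.cons_zero]

theorem Y0_one : Y0 c x 1 = 0 := by
  rw [one_eq, Y0, Fin.cons_succ, Fin.cons_zero]

theorem Y1_zero : Y1 c x 0 = 0 := by
  rw [Y1, Fin.cons_zero]

theorem Y1_one : Y1 c x 1 = (Mx c x).det := by
  rw [one_eq, Y1, Fin.cons_succ, Fin.cons_zero]

theorem lx_Y0 (r : Fin m) : lx c r x (Y0 c x) = 0 := by
  rw [lx_split, Y0_zero, Y0_one]
  have h : (fun b : Fin m => Y0 c x b.succ.succ) =
      - ((Mx c x).adjugate.mulVec fun r => lx c r x (Pi.single 0 1)) := by
    funext b
    simp only [Y0, Fin.cons_succ]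
  rw [h, Matrix.mulVec_neg, mulVec_adj]
  simp only [Pi.neg_apply, Pi.smul_apply, smul_eq_mul]
  ring

theorem lx_Y1 (r : Fin m) : lx c r x (Y1 c x) = 0 := by
  rw [lx_split, Y1_zero, Y1_one]
  have h : (fun b : Fin m => Y1 c x b.succ.succ) =
      - ((Mx c x).adjugate.mulVec fun r => lx c r x (Pi.single 1 1)) := by
    funext b
    simp only [Y1, Fin.cons_succ]
  rw [h, Matrix.mulVec_neg, mulVec_adj]
  simp only [Pi.neg_apply, Pi.smul_apply, smul_eq_mul]
  ring

theorem bf_add (r : Bi m) (x y y' : I m → S) (z : S) :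
    bf c r x (fun i => y i + z * y' i) = bf c r x y + z * bf c r x y' := by
  simp only [bf, mul_sum, ← sum_add_distrib]
  exact sum_congr rfl fun i _ => sum_congr rfl fun j _ => by ring

theorem sf_add (x x' y y' : I m → S) (z : S) :
    sf c x x' (fun i => y i + z * y' i) = sf c x x' y + z * sf c x x' y' := by
  simp only [sf, mul_sum, ← sum_add_distrib]
  exact sum_congr rfl fun i _ => sum_congr rfl fun j _ => sum_congr rfl fun k _ => by ring

theorem lx_add (r : Fin m) (x y y' : I m → S) (z : S) :
    lx c r x (fun i => y i + z * y' i) = lx c r x y + z * lx c r x y' := by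
  by_cases h : r.val + 1 < m
  · simp only [lx, h, dite_true]
    exact bf_add c _ x y y' z
  · simp only [lx, h, dite_false]
    exact sf_add c x x y y' z

theorem lx_yh (r : Fin m) (z : S) : lx c r x (yh c x z) = 0 := by
  have h : yh c x z = fun i => Y0 c x i + z * Y1 c x i := rfl
  rw [h, lx_add, lx_Y0, lx_Y1, mul_zero, add_zero]

theorem yh_zero (z : S) : yh c x z 0 = (Mx c x).det := by
  rw [yh, Y0_zero, Y1_zero, mul_zero, add_zero]

theorem yh_one (z : S) : yh c x z 1 = z * (Mx c x).det := by
  rw [yh, Y0_one, Y1_one, zero_add]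

end line

/-! ## Naturality -/

section nat

variable {T : Type*} [CommRing T] (f : S →+* T) (c : Ix m → S) (x : I m → S)

theorem map_single {J : Type*} [DecidableEq J] (j : J) :
    (fun i => f ((Pi.single j 1 : J → S) i)) = Pi.single j 1 := by
  funext i
  by_cases h : i = j
  · subst h
    simp
  · simp [Pi.single_eq_of_ne h]

theorem map_lx (r : Fin m) (x y : I m → S) : f (lx c r x y) =
    lx (fun e => f (c e)) r (fun i => f (x i)) fun i => f (y i) := by
  by_cases h : r.val + 1 < m
  · simp only [lx, h, dite_true, bf, map_sum, map_mul]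
  · simp only [lx, h, dite_false, sf, map_sum, map_mul, map_add]

theorem map_Mx : f.mapMatrix (Mx c x) = Mx (fun e => f (c e)) fun i => f (x i) := by
  ext r b
  simp only [RingHom.mapMatrix_apply, Matrix.map_apply, Mx, map_lx, map_single]

theorem map_Mx_det : f (Mx c x).det = (Mx (fun e => f (c e)) fun i => f (x i)).det := by
  rw [RingHom.map_det, map_Mx]

theorem map_mulVec {n : ℕ} (M : Matrix (Fin n) (Fin n) S) (v : Fin n → S) (i : Fin n) :
    f (M.mulVec v i) = (f.mapMatrix M).mulVec (fun j => f (v j)) i := by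
  simp only [Matrix.mulVec, dotProduct, map_sum, map_mul, RingHom.mapMatrix_apply,
    Matrix.map_apply]

theorem map_Y0 (i : I m) : f (Y0 c x i) = Y0 (fun e => f (c e)) (fun i => f (x i)) i := by
  refine Fin.cases ?_ (fun j => Fin.cases ?_ (fun b => ?_) j) i
  · simp only [Y0, Fin.cons_zero, map_Mx_det]
  · simp only [Y0, Fin.cons_succ, Fin.cons_zero, map_zero]
  · simp only [Y0, Fin.cons_succ, Pi.neg_apply, map_neg, map_mulVec, RingHom.map_adjugate, map_Mx,
      map_lx, map_single]

theorem map_Y1 (i : I m) : f (Y1 c x i) = Y1 (fun e => f (c e)) (fun i => f (x i)) i := by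
  refine Fin.cases ?_ (fun j => Fin.cases ?_ (fun b => ?_) j) i
  · simp only [Y1, Fin.cons_zero, map_zero]
  · simp only [Y1, Fin.cons_succ, Fin.cons_zero, map_Mx_det]
  · simp only [Y1, Fin.cons_succ, Pi.neg_apply, map_neg, map_mulVec, RingHom.map_adjugate, map_Mx,
      map_lx, map_single]

theorem map_yh (z : S) (i : I m) :
    f (yh c x z i) = yh (fun e => f (c e)) (fun i => f (x i)) (f z) i := by
  simp only [yh, map_add, map_mul, map_Y0, map_Y1]

end nat

/-! ## Derivatives -/

/-- The value at `0`. -/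
noncomputable def ev (P : Polynomial S) : S := P.eval 0

/-- The derivative at `0`. -/
noncomputable def dv (P : Polynomial S) : S := P.derivative.eval 0

theorem dv_mul (P Q : Polynomial S) : dv (P * Q) = dv P * ev Q + ev P * dv Q := by
  simp [dv, ev, Polynomial.derivative_mul]

theorem dv_C_mul (a : S) (P : Polynomial S) : dv (Polynomial.C a * P) = a * dv P := by
  simp [dv]

theorem dv_sum {ι : Type*} (s : Finset ι) (P : ι → Polynomial S) :
    dv (∑ i ∈ s, P i) = ∑ i ∈ s, dv (P i) := by
  simp [dv, Polynomial.eval_finsetSum]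

theorem ev_mul (P Q : Polynomial S) : ev (P * Q) = ev P * ev Q := by simp [ev]

variable (c : Ix m → S)

theorem dv_bf (r : Bi m) (x y : I m → Polynomial S) :
    dv (bf (fun e => Polynomial.C (c e)) r x y) =
      bf c r (fun i => dv (x i)) (fun i => ev (y i)) +
      bf c r (fun i => ev (x i)) (fun i => dv (y i)) := by
  simp only [bf, dv_sum, ← sum_add_distrib]
  refine sum_congr rfl fun i _ => sum_congr rfl fun j _ => ?_
  rw [mul_assoc, dv_C_mul, dv_mul]
  ring

theorem dv_sf (x x' y : I m → Polynomial S) :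
    dv (sf (fun e => Polynomial.C (c e)) x x' y) =
      sf c (fun i => dv (x i)) (fun i => ev (x' i)) (fun i => ev (y i)) +
      sf c (fun i => ev (x i)) (fun i => dv (x' i)) (fun i => ev (y i)) +
      sf c (fun i => ev (x i)) (fun i => ev (x' i)) (fun i => dv (y i)) := by
  simp only [sf, dv_sum, ← sum_add_distrib]
  refine sum_congr rfl fun i _ => sum_congr rfl fun j _ => sum_congr rfl fun k _ => ?_
  rw [← map_add, mul_assoc, mul_assoc, dv_C_mul, dv_mul, dv_mul, ev_mul]
  ring

theorem dv_tf (x y y' : I m → Polynomial S) :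
    dv (tf (fun e => Polynomial.C (c e)) x y y') =
      tf c (fun i => dv (x i)) (fun i => ev (y i)) (fun i => ev (y' i)) +
      tf c (fun i => ev (x i)) (fun i => dv (y i)) (fun i => ev (y' i)) +
      tf c (fun i => ev (x i)) (fun i => ev (y i)) (fun i => dv (y' i)) := by
  simp only [tf, dv_sum, ← sum_add_distrib]
  refine sum_congr rfl fun i _ => sum_congr rfl fun j _ => sum_congr rfl fun k _ => ?_
  rw [← map_add, mul_assoc, mul_assoc, dv_C_mul, dv_mul, dv_mul, ev_mul]
  ring

theorem sf_symm (x x' y : I m → S) : sf c x x' y = sf c x' x y := by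
  simp only [sf]
  rw [sum_comm]
  exact sum_congr rfl fun i _ => sum_congr rfl fun j _ => sum_congr rfl fun k _ => by ring

theorem tf_symm (x y y' : I m → S) : tf c x y y' = tf c x y' y := by
  simp only [tf]
  refine sum_congr rfl fun i _ => ?_
  rw [sum_comm]
  exact sum_congr rfl fun j _ => sum_congr rfl fun k _ => by ring

theorem tf_smul3 (a : S) (x y y' : I m → S) :
    tf c x y (fun i => a * y' i) = a * tf c x y y' := by
  simp only [tf, mul_sum]
  exact sum_congr rfl fun i _ => sum_congr rfl fun j _ => sum_congr rfl fun k _ => by ring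

theorem tf_add3 (x y y' y'' : I m → S) :
    tf c x y (fun i => y' i + y'' i) = tf c x y y' + tf c x y y'' := by
  simp only [tf, ← sum_add_distrib]
  exact sum_congr rfl fun i _ => sum_congr rfl fun j _ => sum_congr rfl fun k _ => by ring

/-- The vector whose first two entries are `0`. -/
noncomputable def ad (x : I m → S) (g : Fin m → S) : I m → S :=
  Fin.cons 0 (Fin.cons 0 (- ((Mx c x).adjugate.mulVec g)))

/-- `w` with `L_r (x, w) = - g r`. -/
theorem det_mul_gen (x w : I m → S) (g : Fin m → S) (h : ∀ r, lx c r x w = - g r) (i : I m) :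
    (Mx c x).det * w i = w 0 * Y0 c x i + w 1 * Y1 c x i + ad c x g i := by
  refine Fin.cases ?_ (fun j => Fin.cases ?_ (fun b => ?_) j) i
  · simp only [Y0, Y1, ad, Fin.cons_zero]
    ring
  · simp only [Y0, Y1, ad, Fin.cons_succ, Fin.cons_zero]
    have e1 : (Fin.succ 0 : Fin (m + 2)) = 1 := rfl
    rw [e1]
    ring
  · simp only [Y0, Y1, ad, Fin.cons_succ, Pi.neg_apply]
    have h1 : (Mx c x).mulVec (fun b : Fin m => w b.succ.succ) =
        (- w 0) • (fun r => lx c r x (Pi.single 0 1)) +
          (- w 1) • (fun r => lx c r x (Pi.single 1 1)) + (-1 : S) • g := by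
      funext r
      have h2 := lx_split c r x w
      rw [h r] at h2
      simp only [Pi.add_apply, Pi.smul_apply, smul_eq_mul]
      linear_combination -h2
    have h4 : (Mx c x).det * w b.succ.succ =
        (Mx c x).adjugate.mulVec ((Mx c x).mulVec (fun b : Fin m => w b.succ.succ)) b := by
      rw [adj_mulVec]
      rfl
    rw [h4, h1, Matrix.mulVec_add, Matrix.mulVec_add, Matrix.mulVec_smul, Matrix.mulVec_smul,
      Matrix.mulVec_smul]
    simp only [Pi.add_apply, Pi.smul_apply, smul_eq_mul]
    ring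

section main

variable (x ξ : I m → S)

/-- The line through `x` in the direction `ξ`. -/
noncomputable def xT (i : I m) : Polynomial S :=
  Polynomial.C (x i) + Polynomial.X * Polynomial.C (ξ i)

theorem ev_xT (i : I m) : ev (xT x ξ i) = x i := by simp [ev, xT]

theorem dv_xT (i : I m) : dv (xT x ξ i) = ξ i := by
  simp [dv, xT, Polynomial.derivative_mul]

/-- The derivative of the linear forms over `x`. -/
theorem dv_lx (r : Fin m) (y : I m → Polynomial S) :
    dv (lx (fun e => Polynomial.C (c e)) r (xT x ξ) y) =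
      dl c r x ξ (fun i => ev (y i)) + lx c r x (fun i => dv (y i)) := by
  have e2 : (fun i => ev (xT x ξ i)) = x := funext (ev_xT x ξ)
  have e3 : (fun i => dv (xT x ξ i)) = ξ := funext (dv_xT x ξ)
  by_cases h : r.val + 1 < m
  · simp only [lx, dl, h, dite_true]
    rw [dv_bf, e2, e3]
  · simp only [lx, dl, h, dite_false]
    rw [dv_sf, e2, e3, sf_symm c ξ x]
    ring

/-- A family of vectors `y` on the lines with `y 0 = a D`, `y 1 = b D`. -/
theorem dv_form (a b : S) (y : I m → Polynomial S) (y0 : I m → S)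
    (hl : ∀ r, lx (fun e => Polynomial.C (c e)) r (xT x ξ) y = 0)
    (h0 : y 0 = Polynomial.C a * (Mx (fun e => Polynomial.C (c e)) (xT x ξ)).det)
    (h1 : y 1 = Polynomial.C b * (Mx (fun e => Polynomial.C (c e)) (xT x ξ)).det)
    (hy : ∀ i, ev (y i) = y0 i) (hy0 : ∀ i, y0 i = a * Y0 c x i + b * Y1 c x i) :
    (Mx c x).det * dv (tf (fun e => Polynomial.C (c e)) (xT x ξ) y y) =
      (Mx c x).det * tf c ξ y0 y0 + 2 * tf c x y0 (ad c x fun r => dl c r x ξ y0) +
      2 * dv (Mx (fun e => Polynomial.C (c e)) (xT x ξ)).det * tf c x y0 y0 := by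
  have e1 : (fun i => ev (y i)) = y0 := funext hy
  have e2 : (fun i => ev (xT x ξ i)) = x := funext (ev_xT x ξ)
  have e3 : (fun i => dv (xT x ξ i)) = ξ := funext (dv_xT x ξ)
  set w : I m → S := fun i => dv (y i) with hw
  have e4 : ∀ r, lx c r x w = - dl c r x ξ y0 := by
    intro r
    have h2 := dv_lx c x ξ r y
    rw [hl r, e1] at h2
    have h3 : dv (0 : Polynomial S) = 0 := by simp [dv]
    rw [h3] at h2
    linear_combination -h2
  have e5 : ∀ i, (Mx c x).det * w i =
      dv (Mx (fun e => Polynomial.C (c e)) (xT x ξ)).det * y0 i +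
        ad c x (fun r => dl c r x ξ y0) i := by
    intro i
    rw [det_mul_gen c x w _ e4 i]
    have h2 : w 0 = a * dv (Mx (fun e => Polynomial.C (c e)) (xT x ξ)).det := by
      rw [hw]
      simp only [h0, dv_C_mul]
    have h3 : w 1 = b * dv (Mx (fun e => Polynomial.C (c e)) (xT x ξ)).det := by
      rw [hw]
      simp only [h1, dv_C_mul]
    rw [h2, h3, hy0]
    ring
  rw [dv_tf, e1, e2, e3, tf_symm c x w y0]
  have e6 : (Mx c x).det * tf c x y0 w =
      dv (Mx (fun e => Polynomial.C (c e)) (xT x ξ)).det * tf c x y0 y0 +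
        tf c x y0 (ad c x fun r => dl c r x ξ y0) := by
    rw [← tf_smul3, ← tf_smul3, ← tf_add3]
    exact congrArg (tf c x y0) (funext e5)
  linear_combination 2 * e6

/-- `D ∂_ξ Fh = qh + 2 (∂_ξ D) Fh`. -/
theorem diff_F : ∃ d : S, ∀ z, (Mx c x).det * ((Fh (fun e => Polynomial.C (c e))
      (fun i => Polynomial.C (x i) + Polynomial.X * Polynomial.C (ξ i))
        (Polynomial.C z)).derivative.eval 0) = qh c x ξ z + 2 * d * Fh c x z ∧
    (Mx c x).det * ((Ah (fun e => Polynomial.C (c e))
      (fun i => Polynomial.C (x i) + Polynomial.X * Polynomial.C (ξ i))).derivative.eval 0) =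
      qa c x ξ + 2 * d * Ah c x := by
  have ec : (fun e => (Polynomial.evalRingHom (0 : S)) (Polynomial.C (c e))) = c := by
    funext e
    simp
  have ex : (fun i => (Polynomial.evalRingHom (0 : S)) (xT x ξ i)) = x := funext (ev_xT x ξ)
  refine ⟨dv (Mx (fun e => Polynomial.C (c e)) (xT x ξ)).det, fun z => ⟨?_, ?_⟩⟩
  · refine dv_form c x ξ 1 z (yh (fun e => Polynomial.C (c e)) (xT x ξ) (Polynomial.C z))
      (yh c x z) (fun r => lx_yh _ _ r _) ?_ ?_ (fun i => ?_) (fun i => ?_)
    · rw [yh_zero, Polynomial.C_1, one_mul]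
    · rw [yh_one]
    · have h := map_yh (Polynomial.evalRingHom (0 : S)) (fun e => Polynomial.C (c e))
        (xT x ξ) (Polynomial.C z) i
      rw [ec, ex] at h
      refine h.trans ?_
      simp
    · simp [yh]
  · refine dv_form c x ξ 0 1 (Y1 (fun e => Polynomial.C (c e)) (xT x ξ))
      (Y1 c x) (fun r => lx_Y1 _ _ r) ?_ ?_ (fun i => ?_) (fun i => ?_)
    · rw [Y1_zero, Polynomial.C_0, zero_mul]
    · rw [Y1_one, Polynomial.C_1, one_mul]
    · have h := map_Y1 (Polynomial.evalRingHom (0 : S)) (fun e => Polynomial.C (c e))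
        (xT x ξ) i
      rw [ec, ex] at h
      exact h
    · ring

end main

end Pool.Agent.Helper82.H2
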